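import Pool.Agent.Q131.FT.Main

/-!
# Maps of compact domains which are injective on the boundary
-/

set_option autoImplicit false

open Set Filter Topology Metric Function
open scoped Manifold ContDiff

noncomputable section

namespace Pool.Agent.Q131.FT

open Pool.Agent.Y522 Pool.Agent.Y66.CM Pool.Agent.Q130.CM Pool.Agent.Y170.NA

variable {m : ℕ} {X Y : Type} [TopologicalSpace X] [ChartedSpace (E (m + 1)) X]
  [IsManifold (𝓡 (m + 1)) ∞ X] [TopologicalSpace Y] [ChartedSpace (E (m + 1)) Y]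
  [IsManifold (𝓡 (m + 1)) ∞ Y]

/-- local injectivity at one point -/
theorem locInj (f : X → Y) (x : X) (h : LD (m + 1) f x ∨ CMon (m + 1) f x ∨ NF m f x) :
    ∃ V ∈ 𝓝 x, InjOn f V := by
  rcases h with h | h | ⟨h, ⟨U, hU, hfib⟩, A, B, rfl, hA, hB, hdet⟩
  · exact h.eventually_injOn
  · exact inj_near_cmon f x h
  · exact inj_near f A B hA hB (h.mono fun y hy => hy.1) h.self_of_nhds.2 hdet U hU hfib

/-- locally injective maps are open -/
theorem openAt (n : ℕ) {X Y : Type} [TopologicalSpace X] [ChartedSpace (E n) X]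
    [TopologicalSpace Y] [ChartedSpace (E n) Y] (f : X → Y) {U : Set X} (hU : IsOpen U) (hc : ContinuousOn f U) {x : X}
    (hx : x ∈ U) (h : ∃ V ∈ 𝓝 x, InjOn f V) {N : Set X} (hN : N ∈ 𝓝 x) : f '' N ∈ 𝓝 (f x) := by
  obtain ⟨V, hV, hinj⟩ := h
  obtain ⟨W, hW1, hW2, hW3⟩ := mem_nhds_iff.1 (inter_mem (inter_mem hV hN) (hU.mem_nhds hx))
  obtain ⟨W', hW'⟩ : ∃ W' : TopologicalSpace.Opens X, (W' : Set X) = W := ⟨⟨W, hW2⟩, rfl⟩
  subst hW'
  have h1 : Continuous (fun u : W' => f u) :=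
    hc.comp_continuous continuous_subtype_val (fun u => (hW1 u.2).2)
  have h2 : Injective (fun u : W' => f u) := fun a b hab =>
    Subtype.ext (hinj (hW1 a.2).1.1 (hW1 b.2).1.1 hab)
  have h3 := (isOpenMap_of_injective n (X := W') _ h1 h2).isOpen_range
  refine mem_of_superset (h3.mem_nhds ⟨⟨x, hW3⟩, rfl⟩) ?_
  rintro _ ⟨u, rfl⟩
  exact ⟨u, (hW1 u.2).1.2, rfl⟩

omit [IsManifold (𝓡 (m + 1)) ∞ X] [IsManifold (𝓡 (m + 1)) ∞ Y] in
/-- cone monotone maps of open submanifolds -/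
theorem CMon_sub (U : TopologicalSpace.Opens X) (W : TopologicalSpace.Opens Y) (g : U → W)
    (f : X → Y) (hfg : ∀ u : U, (g u : Y) = f u) (u : U) (h : CMon (m + 1) f (u : X)) :
    CMon (m + 1) g u := by
  obtain ⟨B, hB, A, hA0, hA, hc⟩ := h
  obtain ⟨p, hp1, hp2, hp3, hp4⟩ := (LD_val (n := m + 1) U u).exists_inverse
  refine ⟨fun w => B (w : Y), ?_, fun z => p (A z), ?_, ?_, ?_⟩
  · refine LD.comp_fun (g := B) ?_ (LD_val W (g u))
    rw [hfg u]
    exact hB
  · simp only [hA0]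
    exact hp2
  · refine LD.comp_fun (g := p) ?_ hA
    rw [hA0]
    exact hp1
  · have h1 : ∀ᶠ z in 𝓝 (0 : E (m + 1)), ((p (A z) : U) : X) = A z := by
      have h0 : Tendsto A (𝓝 0) (𝓝 (u : X)) := by
        have := hA.continuousAt.tendsto
        rwa [hA0] at this
      exact h0.eventually hp4
    obtain ⟨r₀, hr₀, h2⟩ := Metric.eventually_nhds_iff_ball.1 h1
    intro v hv
    obtain ⟨r, ℓ, hr, h3⟩ := hc v hv
    refine ⟨min r (r₀ / 2), ℓ, lt_min hr (by linarith), fun a b ha hb t ht hab => ?_⟩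
    have e1 : ∀ z : E (m + 1), ‖z‖ ≤ min r (r₀ / 2) →
        B ((g (p (A z)) : W) : Y) = B (f (A z)) := by
      intro z hz
      rw [hfg, h2 z (by
        rw [mem_ball_zero_iff]
        have := hz.trans (min_le_right _ _)
        linarith)]
    have h4 := h3 a b (ha.trans (min_le_left _ _)) (hb.trans (min_le_left _ _)) t ht
      (hab.trans (mul_le_mul_of_nonneg_right (min_le_left _ _) ht.le))
    simp only [e1 a ha, e1 b hb]
    exact lt_of_le_of_lt (mul_le_mul_of_nonneg_right (min_le_left _ _) (norm_nonneg _)) h4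

variable [T2Space X] [SigmaCompactSpace X] [T2Space Y]

/-- A map of a compact domain which is a local diffeomorphism along the boundary and injective on
the boundary. -/
theorem ball (hm : 1 ≤ m) [ConnectedSpace Y] (f : X → Y) (D : Set X) (hD : IsCompact D)
    (hc : ContinuousOn f D) (hF : ∀ x ∈ D \ interior D, LD (m + 1) f x)
    (hFi : InjOn f (D \ interior D)) (hFn : (D \ interior D).Nonempty)
    (hsep : ∀ x ∈ interior D, ∀ y ∈ D \ interior D, f x ≠ f y)
    (hI : ∀ x ∈ interior D, LD (m + 1) f x ∨ CMon (m + 1) f x ∨ NF m f x)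
    (O : Set (X × Y)) (hO : IsOpen O) (hfO : ∀ x ∈ D, (x, f x) ∈ O) :
    InjOn f D ∧ IsOpen (f '' interior D) ∧ ∃ Φ : X → Y, (∀ x ∈ D, LD (m + 1) Φ x) ∧ InjOn Φ D ∧
      Φ '' D = f '' D ∧ (∀ x, x ∉ interior D → Φ x = f x) ∧
      (∀ x ∈ D \ interior D, Φ =ᶠ[𝓝 x] f) ∧ ∀ x ∈ D, (x, Φ x) ∈ O := by
  classical
  have : LocallyCompactSpace X := ChartedSpace.locallyCompactSpace (E (m + 1)) X
  have : SecondCountableTopology X :=
    ChartedSpace.secondCountable_of_sigmaCompact (E (m + 1)) X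
  have hcl : IsClosed D := hD.isClosed
  have hloc : ∀ x ∈ D, ∃ V ∈ 𝓝 x, InjOn f V := by
    intro x hx
    by_cases hxI : x ∈ interior D
    · exact locInj f x (hI x hxI)
    · exact locInj f x (Or.inl (hF x ⟨hx, hxI⟩))
  have hcI : ContinuousOn f (interior D) := hc.mono interior_subset
  have hopen : ∀ x ∈ interior D, ∀ N ∈ 𝓝 x, f '' N ∈ 𝓝 (f x) := fun x hx N hN =>
    openAt (m + 1) f isOpen_interior hcI hx (hloc x (interior_subset hx)) hN
  have hinj : InjOn f D := by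
    by_contra hcon
    obtain ⟨a₀, ha₀, b₀, hb₀, hab₀, hne₀⟩ : ∃ a ∈ D, ∃ b ∈ D, f a = f b ∧ a ≠ b := by
      unfold InjOn at hcon
      push Not at hcon
      obtain ⟨a, ha, b, hb, h1, h2⟩ := hcon
      exact ⟨a, ha, b, hb, h1, h2⟩
    obtain ⟨Z, hZ⟩ : ∃ Z : Set (X × X), Z = {p | (p ∈ D ×ˢ D ∧ f p.1 = f p.2) ∧ p.1 ≠ p.2} :=
      ⟨_, rfl⟩
    have hcl1 : IsClosed {p : X × X | p ∈ D ×ˢ D ∧ f p.1 = f p.2} := by
      have h1 : ContinuousOn (fun p : X × X => (f p.1, f p.2)) (D ×ˢ D) :=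
        (hc.comp continuous_fst.continuousOn fun p hp => hp.1).prodMk
          (hc.comp continuous_snd.continuousOn fun p hp => hp.2)
      exact h1.preimage_isClosed_of_isClosed (hcl.prod hcl) isClosed_diagonal
    have hZc : IsClosed Z := by
      rw [← isOpen_compl_iff, isOpen_iff_mem_nhds]
      intro p hp
      by_cases h1 : p ∈ {p : X × X | p ∈ D ×ˢ D ∧ f p.1 = f p.2}
      · have h2 : p.1 = p.2 := by
          by_contra h
          exact hp (by rw [hZ]; exact ⟨h1, h⟩)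
        obtain ⟨V, hV, hVi⟩ := hloc p.1 h1.1.1
        have h3 : V ×ˢ V ∈ 𝓝 p := by
          have : p = (p.1, p.1) := Prod.ext rfl h2.symm
          rw [this]
          exact prod_mem_nhds hV hV
        filter_upwards [h3] with q hq hqZ
        rw [hZ] at hqZ
        exact hqZ.2 (hVi hq.1 hq.2 hqZ.1.2)
      · filter_upwards [hcl1.isOpen_compl.mem_nhds h1] with q hq hqZ
        rw [hZ] at hqZ
        exact hq hqZ.1
    have hZk : IsCompact Z := (hD.prod hD).of_isClosed_subset hZc (by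
      rw [hZ]
      exact fun p hp => hp.1.1)
    have hmem : ∀ p ∈ Z, p.1 ∈ interior D ∧ p.2 ∈ interior D := by
      intro p hp
      rw [hZ] at hp
      obtain ⟨⟨⟨h1, h2⟩, h3⟩, h4⟩ := hp
      by_cases hp1 : p.1 ∈ interior D
      · refine ⟨hp1, ?_⟩
        by_contra hp2
        exact hsep _ hp1 _ ⟨h2, hp2⟩ h3
      · exfalso
        by_cases hp2 : p.2 ∈ interior D
        · exact hsep _ hp2 _ ⟨h1, hp1⟩ h3.symm
        · exact h4 (hFi ⟨h1, hp1⟩ ⟨h2, hp2⟩ h3)
    obtain ⟨T, hT⟩ : ∃ T : Set Y, T = (fun p : X × X => f p.1) '' Z := ⟨_, rfl⟩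
    have hTc : IsClosed T := by
      rw [hT]
      refine (hZk.image_of_continuousOn (hc.comp continuous_fst.continuousOn ?_)).isClosed
      intro p hp
      exact interior_subset (hmem p hp).1
    have hTo : IsOpen T := by
      rw [isOpen_iff_mem_nhds]
      intro y hy
      rw [hT] at hy
      obtain ⟨p, hp, rfl⟩ := hy
      obtain ⟨m1, m2⟩ := hmem p hp
      rw [hZ] at hp
      obtain ⟨⟨⟨h1, h2⟩, h3⟩, h4⟩ := hp
      obtain ⟨U₁, U₂, o1, o2, x1, x2, hd⟩ := t2_separation h4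
      have n1 := hopen p.1 m1 (U₁ ∩ interior D)
        (inter_mem (o1.mem_nhds x1) (isOpen_interior.mem_nhds m1))
      have n2 := hopen p.2 m2 (U₂ ∩ interior D)
        (inter_mem (o2.mem_nhds x2) (isOpen_interior.mem_nhds m2))
      rw [← h3] at n2
      filter_upwards [n1, n2] with y hy1 hy2
      obtain ⟨a, ⟨ha, haI⟩, rfl⟩ := hy1
      obtain ⟨b, ⟨hb, hbI⟩, hab⟩ := hy2
      rw [hT]
      refine ⟨(a, b), ?_, rfl⟩
      rw [hZ]
      refine ⟨⟨⟨interior_subset haI, interior_subset hbI⟩, hab.symm⟩, ?_⟩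
      rintro (h : a = b)
      rw [h] at ha
      exact Set.disjoint_left.1 hd ha hb
    have hTu : T = univ := (show IsClopen T from ⟨hTc, hTo⟩).eq_univ ⟨f a₀, by
      rw [hT]
      refine ⟨(a₀, b₀), ?_, rfl⟩
      rw [hZ]
      exact ⟨⟨⟨ha₀, hb₀⟩, hab₀⟩, hne₀⟩⟩
    obtain ⟨x₀, hx₀⟩ := hFn
    have h1 : f x₀ ∈ T := by rw [hTu]; exact mem_univ _
    rw [hT] at h1
    obtain ⟨p, hp, hpx⟩ := h1
    exact hsep _ (hmem p hp).1 _ hx₀ hpx
  have hWo : IsOpen (f '' interior D) := by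
    rw [isOpen_iff_mem_nhds]
    rintro _ ⟨x, hx, rfl⟩
    exact hopen x hx _ (isOpen_interior.mem_nhds hx)
  refine ⟨hinj, hWo, ?_⟩
  -- the bad points
  have hLo : IsOpen {x | LD (m + 1) f x} := by
    rw [isOpen_iff_mem_nhds]
    intro x hx
    exact LD.eventually hx
  have hBc : IsCompact (D ∩ {x | LD (m + 1) f x}ᶜ) := hD.inter_right hLo.isClosed_compl
  have hBI : D ∩ {x | LD (m + 1) f x}ᶜ ⊆ interior D := by
    rintro x ⟨hx, hxb⟩
    by_contra hxI
    exact hxb (hF x ⟨hx, hxI⟩)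
  obtain ⟨V, hVo, hBV, hVI, -⟩ := exists_open_between_and_isCompact_closure hBc isOpen_interior hBI
  obtain ⟨U, hU⟩ : ∃ U : TopologicalSpace.Opens X, (U : Set X) = interior D :=
    ⟨⟨_, isOpen_interior⟩, rfl⟩
  obtain ⟨W, hW⟩ : ∃ W : TopologicalSpace.Opens Y, (W : Set Y) = f '' interior D :=
    ⟨⟨_, hWo⟩, rfl⟩
  have hUm : ∀ u : U, (u : X) ∈ interior D := fun u => by rw [← hU]; exact u.2
  have hfW : ∀ u : U, f u ∈ W := by
    intro u
    have : f u ∈ (W : Set Y) := by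
      rw [hW]
      exact mem_image_of_mem _ (hUm u)
    exact this
  let g₀ : U → W := fun u => ⟨f u, hfW u⟩
  have hg₀c : Continuous g₀ := Continuous.subtype_mk
    (hcI.comp_continuous continuous_subtype_val hUm) _
  have hg₀i : Injective g₀ := fun a b hab => Subtype.ext
    (hinj (interior_subset (hUm a)) (interior_subset (hUm b)) (congrArg Subtype.val hab))
  have hg₀s : Surjective g₀ := by
    rintro ⟨y, hy⟩
    have hy' : y ∈ (W : Set Y) := hy
    rw [hW] at hy'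
    obtain ⟨x, hx, rfl⟩ := hy'
    refine ⟨⟨x, ?_⟩, rfl⟩
    show x ∈ (U : Set X)
    rw [hU]
    exact hx
  have hg₀o : IsOpenMap g₀ := isOpenMap_of_injective (m + 1) _ hg₀c hg₀i
  obtain ⟨g, hg⟩ : ∃ g : U ≃ₜ W, ∀ u, (g u : Y) = f u :=
    ⟨(Equiv.ofBijective g₀ ⟨hg₀i, hg₀s⟩).toHomeomorphOfContinuousOpen hg₀c hg₀o, fun u => rfl⟩
  have : LocallyCompactSpace U := ChartedSpace.locallyCompactSpace (E (m + 1)) U
  have hOc : Continuous fun p : U × W => ((p.1 : X), (p.2 : Y)) :=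
    (continuous_subtype_val.comp continuous_fst).prodMk (continuous_subtype_val.comp continuous_snd)
  obtain ⟨g', k1, k2, k3, k4⟩ := mixInf m hm U W g (Subtype.val ⁻¹' V)
    (hVo.preimage continuous_subtype_val) (by
      intro u hu
      have hu' : ¬ LD (m + 1) f (u : X) := fun h => hu (LD_sub' U W g f hg g.continuous u h)
      refine ⟨hBV ⟨interior_subset (hUm u), hu'⟩, ?_⟩
      rcases hI u (hUm u) with h | h | h
      · exact absurd h hu'
      · exact Or.inl (CMon_sub U W g f hg u h)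
      · right
        have h1 : ∀ᶠ v : U in 𝓝 u, ContMDiffAt (𝓡 (m + 1)) (𝓡 (m + 1)) ∞ f (v : X) ∧
            m ≤ Module.finrank ℝ (LinearMap.range
              (mfderiv (𝓡 (m + 1)) (𝓡 (m + 1)) f (v : X)).toLinearMap) :=
          ((continuous_subtype_val : Continuous (Subtype.val : U → X)).tendsto u).eventually h.1
        filter_upwards [h1] with v hv
        exact ⟨smooth_sub U W g f hg g.continuous v hv.1,
          rank_sub U W g f hg g.continuous v hv.1 hv.2⟩)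
    ((fun p : U × W => ((p.1 : X), (p.2 : Y))) ⁻¹' O) (hO.preimage hOc) (fun u => by
      show ((u : X), ((g u : W) : Y)) ∈ O
      rw [hg]
      exact hfO _ (interior_subset (hUm u)))
  obtain ⟨Φ, hΦI, hΦF⟩ : ∃ Φ : X → Y, (∀ u : U, Φ u = g' u) ∧ ∀ x, x ∉ interior D → Φ x = f x := by
    refine ⟨fun x => if h : x ∈ interior D then (g' ⟨x, by
      show x ∈ (U : Set X)
      rw [hU]
      exact h⟩ : Y) else f x, fun u => ?_, fun x hx => ?_⟩
    · simp only [dif_pos (hUm u)]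
    · simp only [dif_neg hx]
  have hmk : ∀ x ∈ interior D, ∃ u : U, (u : X) = x := fun x hx => ⟨⟨x, by
    show x ∈ (U : Set X)
    rw [hU]
    exact hx⟩, rfl⟩
  have hΦoff : ∀ x, x ∉ V → Φ x = f x := by
    intro x hx
    by_cases hxI : x ∈ interior D
    · obtain ⟨u, rfl⟩ := hmk x hxI
      rw [hΦI, k4 u hx, hg]
    · exact hΦF x hxI
  have hΦev : ∀ x ∈ D \ interior D, Φ =ᶠ[𝓝 x] f := by
    intro x hx
    have h1 : x ∉ closure V := fun h => hx.2 (hVI h)
    filter_upwards [isClosed_closure.isOpen_compl.mem_nhds h1] with y hy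
    exact hΦoff y fun h => hy (subset_closure h)
  have hΦW : ∀ x ∈ interior D, Φ x ∈ f '' interior D := by
    intro x hx
    obtain ⟨u, rfl⟩ := hmk x hx
    rw [hΦI, ← hW]
    exact (g' u).2
  refine ⟨Φ, ?_, ?_, ?_, hΦF, hΦev, ?_⟩
  · intro x hx
    by_cases hxI : x ∈ interior D
    · obtain ⟨u, rfl⟩ := hmk x hxI
      exact LD_sub U W g' Φ (fun v => (hΦI v).symm) u (k3 u)
    · exact (hF x ⟨hx, hxI⟩).congr (hΦev x ⟨hx, hxI⟩)
  · intro x hx y hy hxy
    by_cases hxI : x ∈ interior D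
    · by_cases hyI : y ∈ interior D
      · obtain ⟨u, rfl⟩ := hmk x hxI
        obtain ⟨v, rfl⟩ := hmk y hyI
        rw [hΦI, hΦI] at hxy
        exact congrArg Subtype.val (k2.1 (Subtype.ext hxy))
      · exfalso
        obtain ⟨x', hx', hxx⟩ := hΦW x hxI
        rw [hΦF y hyI] at hxy
        exact hsep x' hx' y ⟨hy, hyI⟩ (hxx.trans hxy)
    · by_cases hyI : y ∈ interior D
      · exfalso
        obtain ⟨y', hy', hyy⟩ := hΦW y hyI
        rw [hΦF x hxI] at hxy
        exact hsep y' hy' x ⟨hx, hxI⟩ (hyy.trans hxy.symm)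
      · rw [hΦF x hxI, hΦF y hyI] at hxy
        exact hFi ⟨hx, hxI⟩ ⟨hy, hyI⟩ hxy
  · apply Subset.antisymm
    · rintro _ ⟨x, hx, rfl⟩
      by_cases hxI : x ∈ interior D
      · obtain ⟨x', hx', hxx⟩ := hΦW x hxI
        exact ⟨x', interior_subset hx', hxx⟩
      · exact ⟨x, hx, (hΦF x hxI).symm⟩
    · rintro _ ⟨x, hx, rfl⟩
      by_cases hxI : x ∈ interior D
      · have h1 : f x ∈ (W : Set Y) := by rw [hW]; exact mem_image_of_mem _ hxI
        obtain ⟨u, hu⟩ := k2.2 ⟨f x, h1⟩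
        refine ⟨u, interior_subset (hUm u), ?_⟩
        rw [hΦI, hu]
      · exact ⟨x, hx, hΦF x hxI⟩
  · intro x hx
    by_cases hxI : x ∈ interior D
    · obtain ⟨u, rfl⟩ := hmk x hxI
      rw [hΦI]
      exact k1 u
    · rw [hΦF x hxI]
      exact hfO x hx

end Pool.Agent.Q131.FT
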