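import Pool.Agent.Y170.NA.Pre
import Pool.Agent.Y434.CI.Prd
import Pool.Agent.Y207.SH.MStepA

/-!
# Countable-to-one smooth maps of corank at most one whose Jacobian does not change sign

Such a map is locally injective.
-/

set_option autoImplicit false

open Set Filter Topology Metric Function
open scoped Manifold ContDiff

noncomputable section

namespace Pool.Agent.Q131.FT

open Pool.Agent.Y522

variable {m : ℕ}

/-- determinant of a map over `tl` -/
theorem det_cn (α : E (m + 1) →ₗ[ℝ] ℝ) (M : E (m + 1) →ₗ[ℝ] E (m + 1))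
    (hM : ∀ v, M v = cn (α v) (tl v)) : LinearMap.det M = α e0 := by
  have h : M = LinearMap.transvection
      (α - ((EuclideanSpace.proj 0 : E (m + 1) →L[ℝ] ℝ) : E (m + 1) →ₗ[ℝ] ℝ)) e0 := by
    ext1 v
    rw [hM]
    change cn (α v) (tl v) = v + (α v - v 0) • e0
    calc cn (α v) (tl v) = α v • e0 + cn 0 (tl v) := cn_eq _ _
      _ = ((v 0) • e0 + cn 0 (tl v)) + (α v - v 0) • e0 := by module
      _ = v + (α v - v 0) • e0 := by rw [← cn_eq, cn_tl]
  rw [h, LinearMap.transvection.det]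
  change 1 + (α e0 - (e0 : E (m + 1)) 0) = α e0
  unfold e0
  rw [cn_zero]
  ring

/-- a functional complementing a surjective map of corank one -/
theorem exists_compl (L : E (m + 1) →L[ℝ] E m) (hL : Surjective L) :
    ∃ l : E (m + 1) →L[ℝ] ℝ, ∀ v, l v = 0 → L v = 0 → v = 0 := by
  have h1 : Module.finrank ℝ (LinearMap.ker L.toLinearMap) = 1 := by
    have h2 := LinearMap.finrank_range_add_finrank_ker L.toLinearMap
    have h3 : LinearMap.range L.toLinearMap = ⊤ := LinearMap.range_eq_top.2 hL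
    rw [h3, finrank_top, finrank_euclideanSpace, finrank_euclideanSpace, Fintype.card_fin,
      Fintype.card_fin] at h2
    omega
  obtain ⟨⟨k, hk⟩, hk0, hspan⟩ := finrank_eq_one_iff'.1 h1
  have hk0' : k ≠ 0 := fun h => hk0 (Subtype.ext h)
  refine ⟨innerSL ℝ k, fun v hv hLv => ?_⟩
  obtain ⟨c, hc⟩ := hspan ⟨v, hLv⟩
  have hc' : c • k = v := congrArg Subtype.val hc
  rw [innerSL_apply_apply, ← hc', inner_smul_right, real_inner_self_eq_norm_sq] at hv
  have h4 : c = 0 := by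
    rcases mul_eq_zero.1 hv with h | h
    · exact h
    · exact absurd (pow_eq_zero_iff (two_ne_zero)|>.1 h) (norm_ne_zero_iff.2 hk0')
  rw [← hc', h4, zero_smul]

/-- the map `v ↦ (l v, L v)` -/
def pair (l : E (m + 1) →L[ℝ] ℝ) (L : E (m + 1) →L[ℝ] E m) : E (m + 1) →L[ℝ] E (m + 1) :=
  ((Pool.Agent.Y434.CI.el m : (ℝ × E m) →L[ℝ] E (m + 1))).comp (l.prod L)

theorem pair_apply (l : E (m + 1) →L[ℝ] ℝ) (L : E (m + 1) →L[ℝ] E m) (v : E (m + 1)) :
    pair l L v = cn (l v) (L v) := rfl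

theorem pair_inj {l : E (m + 1) →L[ℝ] ℝ} {L : E (m + 1) →L[ℝ] E m}
    (h : ∀ v, l v = 0 → L v = 0 → v = 0) {v : E (m + 1)} (hv : pair l L v = 0) : v = 0 := by
  rw [pair_apply] at hv
  apply h
  · have := congrArg (fun w : E (m + 1) => w 0) hv
    simpa using this
  · have := congrArg (fun w : E (m + 1) => (tl w : E m)) hv
    simpa using this

theorem det_ne_zero {M : E (m + 1) →L[ℝ] E (m + 1)} (h : ∀ v, M v = 0 → v = 0) : M.det ≠ 0 := by
  intro h0
  have h1 := LinearMap.bot_lt_ker_of_det_eq_zero (f := (M : E (m + 1) →ₗ[ℝ] E (m + 1))) h0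
  obtain ⟨v, hv, hv0⟩ := (Submodule.ne_bot_iff _).1 h1.ne'
  exact hv0 (h v hv)

theorem det_comp (A B : E (m + 1) →L[ℝ] E (m + 1)) : (A.comp B).det = A.det * B.det :=
  LinearMap.det_comp (A : E (m + 1) →ₗ[ℝ] E (m + 1)) (B : E (m + 1) →ₗ[ℝ] E (m + 1))

/-- **Local injectivity.** -/
theorem locally_injective (G : E (m + 1) → E (m + 1)) (z₀ : E (m + 1))
    (hG : ∀ᶠ z in 𝓝 z₀, ContDiffAt ℝ ∞ G z)
    (hrk : m ≤ Module.finrank ℝ (LinearMap.range (fderiv ℝ G z₀).toLinearMap))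
    (hdet : ∀ᶠ z in 𝓝 z₀, 0 ≤ (fderiv ℝ G z).det)
    (U : Set (E (m + 1))) (hU : U ∈ 𝓝 z₀) (hfib : ∀ y, (U ∩ G ⁻¹' {y}).Countable) :
    ∃ V ∈ 𝓝 z₀, InjOn G V := by
  obtain ⟨P, hP⟩ := Pool.Agent.Y170.NA.exists_proj
    (LinearMap.range (fderiv ℝ G z₀).toLinearMap) hrk
  have hPs : Surjective P := fun y => by
    obtain ⟨w, -, hw⟩ := hP y
    exact ⟨w, hw⟩
  have hPD : Surjective (P.comp (fderiv ℝ G z₀)) := fun y => by
    obtain ⟨w, ⟨v, hv⟩, hw⟩ := hP y
    refine ⟨v, ?_⟩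
    change P (fderiv ℝ G z₀ v) = y
    rw [← hw, ← hv]
    rfl
  obtain ⟨l, hl⟩ := exists_compl _ hPD
  obtain ⟨Q, hQ⟩ := exists_compl P hPs
  obtain ⟨T, hTd⟩ : ∃ T : E (m + 1) →L[ℝ] E (m + 1), T = pair Q P := ⟨_, rfl⟩
  have hT0 : ∀ v, T v = 0 → v = 0 := fun v hv => by
    rw [hTd] at hv
    exact pair_inj hQ hv
  have hTa : ∀ v, T v = cn (Q v) (P v) := fun v => by rw [hTd]; rfl
  -- the coordinates
  obtain ⟨Ψ, hΨd⟩ : ∃ Ψ : E (m + 1) → E (m + 1), Ψ = fun z => cn (l z) (P (G z)) := ⟨_, rfl⟩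
  have hΨa : ∀ z, Ψ z = cn (l z) (P (G z)) := fun z => by rw [hΨd]
  have hΨdiff : ∀ z, DifferentiableAt ℝ G z →
      HasFDerivAt Ψ (pair l (P.comp (fderiv ℝ G z))) z := by
    intro z hz
    rw [hΨd]
    have h1 : HasFDerivAt (fun z => (l z, P (G z))) (l.prod (P.comp (fderiv ℝ G z))) z :=
      l.hasFDerivAt.prodMk (P.hasFDerivAt.comp z hz.hasFDerivAt)
    exact ((Pool.Agent.Y434.CI.el m : (ℝ × E m) →L[ℝ] E (m + 1)).hasFDerivAt).comp z h1
  have hΨs : ∀ᶠ z in 𝓝 z₀, ContDiffAt ℝ ∞ Ψ z := by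
    filter_upwards [hG] with z hz
    rw [hΨd]
    have h1 : ContDiffAt ℝ ∞ (fun z => (l z, P (G z))) z :=
      l.contDiff.contDiffAt.prodMk (P.contDiff.contDiffAt.comp z hz)
    exact (Pool.Agent.Y434.CI.contDiff_cn (k := m)).contDiffAt.comp z h1
  have hGd : ∀ᶠ z in 𝓝 z₀, DifferentiableAt ℝ G z := by
    filter_upwards [hG] with z hz
    exact hz.differentiableAt (by simp)
  have hΨL : LD (m + 1) Ψ z₀ := by
    apply Pool.Agent.Y207.SH3.LD_of_pos hΨs
    intro u hu h0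
    rw [(hΨdiff z₀ hGd.self_of_nhds).fderiv] at h0
    have h1 := pair_inj hl h0
    rw [h1, norm_zero] at hu
    exact zero_ne_one hu
  obtain ⟨A, hA1, hA2, hA3, hA4⟩ := hΨL.exists_inverse
  obtain ⟨d₀, hd₀⟩ : ∃ d₀ : ℝ, d₀ = (fderiv ℝ Ψ z₀).det := ⟨_, rfl⟩
  have hd₀0 : d₀ ≠ 0 := by
    rw [hd₀]
    apply det_ne_zero
    intro v hv
    rw [(hΨdiff z₀ hGd.self_of_nhds).fderiv] at hv
    exact pair_inj hl hv
  have hdΨ : ∀ᶠ z in 𝓝 z₀, 0 < (fderiv ℝ Ψ z).det * d₀ := by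
    have h1 : ContinuousAt (fun z => (fderiv ℝ Ψ z).det * d₀) z₀ := by
      have h2 : ContinuousAt (fderiv ℝ Ψ) z₀ :=
        (hΨs.self_of_nhds.fderiv_right (m := 0) (by simp)).continuousAt
      exact ((ContinuousLinearMap.continuous_det.continuousAt).comp h2).mul continuousAt_const
    refine h1.eventually (lt_mem_nhds ?_)
    change 0 < (fderiv ℝ Ψ z₀).det * d₀
    rw [← hd₀]
    exact mul_self_pos.2 hd₀0
  -- the good points
  have hgood : ∀ᶠ w in 𝓝 (Ψ z₀), (DifferentiableAt ℝ G (A w) ∧ 0 ≤ (fderiv ℝ G (A w)).det ∧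
      A w ∈ U ∧ 0 < (fderiv ℝ Ψ (A w)).det * d₀) ∧ Ψ (A w) = w ∧ LD (m + 1) A w := by
    have h1 : ∀ᶠ z in 𝓝 (A (Ψ z₀)), DifferentiableAt ℝ G z ∧ 0 ≤ (fderiv ℝ G z).det ∧
        z ∈ U ∧ 0 < (fderiv ℝ Ψ z).det * d₀ := by
      rw [hA2]
      filter_upwards [hGd, hdet, hU, hdΨ] with z a b c d
      exact ⟨a, b, c, d⟩
    filter_upwards [hA1.continuousAt.eventually h1, hA4, hA1.eventually] with w a b c
    exact ⟨a, b, c⟩
  obtain ⟨r, hr, hball⟩ := Metric.eventually_nhds_iff_ball.1 hgood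
  refine ⟨{z | Ψ z ∈ ball (Ψ z₀) r ∧ A (Ψ z) = z}, ?_, ?_⟩
  · filter_upwards [hΨL.continuousAt.eventually (ball_mem_nhds _ hr), hA3] with z h1 h2
    exact ⟨h1, h2⟩
  rintro z ⟨hz1, hz2⟩ z' ⟨hz'1, hz'2⟩ hzz
  by_contra hne
  obtain ⟨w, hw⟩ : ∃ w, w = Ψ z := ⟨_, rfl⟩
  obtain ⟨w', hw'⟩ : ∃ w', w' = Ψ z' := ⟨_, rfl⟩
  rw [← hw] at hz1 hz2
  rw [← hw'] at hz'1 hz'2
  have hww : w ≠ w' := fun h => hne (by rw [← hz2, ← hz'2, h])
  have htl : (tl w : E m) = tl w' := by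
    rw [hw, hw', hΨa, hΨa, tl_cn, tl_cn, hzz]
  obtain ⟨s0, hs0⟩ : ∃ s0 : ℝ, s0 = w' 0 - w 0 := ⟨_, rfl⟩
  have hdiff : w' - w = s0 • e0 := by
    conv_lhs => rw [← cn_tl w, ← cn_tl w']
    rw [cn_eq (w' 0), cn_eq (w 0), htl, hs0]
    module
  have hs00 : s0 ≠ 0 := by
    intro h
    rw [h, zero_smul] at hdiff
    exact hww (sub_eq_zero.1 hdiff).symm
  obtain ⟨c, hc⟩ : ∃ c : ℝ → E (m + 1), c = fun s => w + s • (w' - w) := ⟨_, rfl⟩
  have hca : ∀ s, c s = w + s • (w' - w) := fun s => by rw [hc]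
  have hcball : ∀ s ∈ Icc (0 : ℝ) 1, c s ∈ ball (Ψ z₀) r := by
    intro s hs
    have h1 := (convex_ball (Ψ z₀) r).segment_subset hz1 hz'1
    apply h1
    rw [segment_eq_image']
    exact ⟨s, hs, (hca s).symm⟩
  have hctl : ∀ s, (tl (c s) : E m) = tl w := by
    intro s
    rw [hca, map_add, map_smul, map_sub, htl, sub_self, smul_zero, add_zero]
  have hPG : ∀ v ∈ ball (Ψ z₀) r, P (G (A v)) = tl v := by
    intro v hv
    have h1 := (hball v hv).2.1
    rw [hΨa] at h1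
    rw [← h1, tl_cn, h1]
  -- the derivative
  obtain ⟨φ, hφ⟩ : ∃ φ : ℝ → ℝ, φ = fun s => Q (G (A (c s))) := ⟨_, rfl⟩
  have hder : ∀ s ∈ Icc (0 : ℝ) 1, ∃ e : ℝ, HasDerivAt φ (s0 * e) s ∧
      0 ≤ e * (T.det * d₀) := by
    intro s hs
    obtain ⟨⟨g1, g2, g3, g4⟩, g5, g6⟩ := hball _ (hcball s hs)
    have hAd : HasFDerivAt A (fderiv ℝ A (c s)) (c s) :=
      (g6.contDiffAt.differentiableAt (by simp)).hasFDerivAt
    have hGA : HasFDerivAt (fun v => G (A v)) ((fderiv ℝ G (A (c s))).comp (fderiv ℝ A (c s)))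
        (c s) := g1.hasFDerivAt.comp (c s) hAd
    obtain ⟨DG, hDG⟩ : ∃ DG, DG = fderiv ℝ G (A (c s)) := ⟨_, rfl⟩
    obtain ⟨DA, hDA⟩ : ∃ DA, DA = fderiv ℝ A (c s) := ⟨_, rfl⟩
    rw [← hDG, ← hDA] at hGA
    rw [← hDA] at hAd
    rw [← hDG] at g2
    have hnb : ball (Ψ z₀) r ∈ 𝓝 (c s) := isOpen_ball.mem_nhds (hcball s hs)
    have e1 : P.comp (DG.comp DA) = tl := by
      have h1 : HasFDerivAt (fun v => P (G (A v))) (P.comp (DG.comp DA)) (c s) :=
        P.hasFDerivAt.comp (c s) hGA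
      have h2 : HasFDerivAt (fun v => P (G (A v))) (tl : E (m + 1) →L[ℝ] E m) (c s) := by
        refine (tl : E (m + 1) →L[ℝ] E m).hasFDerivAt.congr_of_eventuallyEq ?_
        filter_upwards [hnb] with v hv
        exact hPG v hv
      exact h1.unique h2
    have e2 : (fderiv ℝ Ψ (A (c s))).comp DA = ContinuousLinearMap.id ℝ (E (m + 1)) := by
      have h1 : HasFDerivAt (fun v => Ψ (A v)) ((fderiv ℝ Ψ (A (c s))).comp DA) (c s) := by
        have h3 := hΨdiff _ g1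
        rw [h3.fderiv]
        exact h3.comp (c s) hAd
      have h2 : HasFDerivAt (fun v => Ψ (A v)) (ContinuousLinearMap.id ℝ (E (m + 1))) (c s) := by
        refine (hasFDerivAt_id (c s)).congr_of_eventuallyEq ?_
        filter_upwards [hnb] with v hv
        exact (hball v hv).2.1
      exact h1.unique h2
    have e3 : (fderiv ℝ Ψ (A (c s))).det * DA.det = 1 := by
      rw [← det_comp, e2]
      exact LinearMap.det_id
    obtain ⟨M, hM⟩ : ∃ M, M = T.comp (DG.comp DA) := ⟨_, rfl⟩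
    have e4 : ∀ v, M v = cn (Q (DG (DA v))) (tl v) := by
      intro v
      have h1 : P (DG (DA v)) = tl v := congrArg (fun L : E (m + 1) →L[ℝ] E m => L v) e1
      rw [hM]
      change T (DG (DA v)) = _
      rw [hTa, h1]
    have e5 : M.det = Q (DG (DA e0)) :=
      det_cn ((Q.comp (DG.comp DA) : E (m + 1) →L[ℝ] ℝ) : E (m + 1) →ₗ[ℝ] ℝ)
        (M : E (m + 1) →ₗ[ℝ] E (m + 1)) e4
    have e6 : M.det = T.det * (DG.det * DA.det) := by
      rw [hM, det_comp, det_comp]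
    refine ⟨M.det, ?_, ?_⟩
    · have h1 : HasDerivAt c (w' - w) s := by
        rw [hc]
        have h2 := ((hasDerivAt_id s).smul_const (w' - w)).const_add w
        simpa using h2
      have h2 : HasFDerivAt (fun v => Q (G (A v))) (Q.comp (DG.comp DA)) (c s) :=
        Q.hasFDerivAt.comp (c s) hGA
      have h3 := h2.comp_hasDerivAt s h1
      rw [hφ]
      have h4 : (Q.comp (DG.comp DA)) (w' - w) = s0 * M.det := by
        rw [hdiff, map_smul, smul_eq_mul, e5]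
        rfl
      rw [h4] at h3
      exact h3
    · rw [e6]
      have h1 : 0 < DA.det * d₀ := by
        have h2 : DA.det * d₀ = DA.det * DA.det * ((fderiv ℝ Ψ (A (c s))).det * d₀) := by
          calc DA.det * d₀ = DA.det * ((fderiv ℝ Ψ (A (c s))).det * DA.det) * d₀ := by
                rw [e3, mul_one]
            _ = _ := by ring
        rw [h2]
        refine mul_pos (mul_self_pos.2 ?_) g4
        intro h0
        rw [h0, mul_zero] at e3
        exact zero_ne_one e3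
      have h3 : T.det * (DG.det * DA.det) * (T.det * d₀) =
          (T.det * T.det) * DG.det * (DA.det * d₀) := by ring
      rw [h3]
      exact mul_nonneg (mul_nonneg (mul_self_nonneg _) g2) h1.le
  -- monotonicity
  obtain ⟨κ, hκ⟩ : ∃ κ : ℝ, κ = T.det * d₀ * s0 := ⟨_, rfl⟩
  have hκ0 : κ ≠ 0 := by
    rw [hκ]
    exact mul_ne_zero (mul_ne_zero (det_ne_zero hT0) hd₀0) hs00
  have hmono : MonotoneOn (fun s => κ * φ s) (Icc (0 : ℝ) 1) := by
    refine monotoneOn_of_deriv_nonneg (convex_Icc 0 1) ?_ ?_ ?_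
    · intro s hs
      obtain ⟨e, he, -⟩ := hder s hs
      exact (he.const_mul κ).continuousAt.continuousWithinAt
    · intro s hs
      rw [interior_Icc] at hs
      obtain ⟨e, he, -⟩ := hder s (Ioo_subset_Icc_self hs)
      exact (he.const_mul κ).differentiableAt.differentiableWithinAt
    · intro s hs
      rw [interior_Icc] at hs
      obtain ⟨e, he, he2⟩ := hder s (Ioo_subset_Icc_self hs)
      rw [(he.const_mul κ).deriv, hκ]
      have h1 : T.det * d₀ * s0 * (s0 * e) = s0 * s0 * (e * (T.det * d₀)) := by ring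
      rw [h1]
      exact mul_nonneg (mul_self_nonneg _) he2
  have hφ0 : φ 0 = Q (G z) := by
    rw [hφ]
    change Q (G (A (c 0))) = _
    rw [hca, zero_smul, add_zero, hz2]
  have hφ1 : φ 1 = Q (G z) := by
    rw [hφ]
    change Q (G (A (c 1))) = _
    rw [hca, one_smul, add_sub_cancel, hz'2, hzz]
  have hφc : ∀ s ∈ Icc (0 : ℝ) 1, φ s = Q (G z) := by
    intro s hs
    have h1 := hmono (left_mem_Icc.2 zero_le_one) hs hs.1
    have h2 := hmono hs (right_mem_Icc.2 zero_le_one) hs.2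
    simp only [hφ0, hφ1] at h1 h2
    exact mul_left_cancel₀ hκ0 (le_antisymm h2 h1)
  have hconst : ∀ s ∈ Icc (0 : ℝ) 1, G (A (c s)) = G z := by
    intro s hs
    have h1 : T (G (A (c s)) - G z) = 0 := by
      rw [map_sub, hTa, hTa, hPG _ (hcball s hs), hctl]
      have h2 : Q (G (A (c s))) = Q (G z) := by
        have := hφc s hs
        rwa [hφ] at this
      have h3 : P (G z) = tl w := by rw [hw, hΨa, tl_cn]
      rw [h2, h3, sub_self]
    exact sub_eq_zero.1 (hT0 _ h1)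
  have hinj : InjOn (fun s => A (c s)) (Icc (0 : ℝ) 1) := by
    intro s hs s' hs' hss
    have h1 : c s = c s' := by
      rw [← (hball _ (hcball s hs)).2.1, ← (hball _ (hcball s' hs')).2.1]
      exact congrArg Ψ hss
    rw [hca, hca] at h1
    have h2 : (s - s') • (w' - w) = 0 := by
      rw [sub_smul]
      exact sub_eq_zero.2 (add_left_cancel h1)
    rcases smul_eq_zero.1 h2 with h3 | h3
    · exact sub_eq_zero.1 h3
    · exact absurd (sub_eq_zero.1 h3).symm hww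
  have hcount : (Icc (0 : ℝ) 1).Countable := by
    have h1 : (fun s => A (c s)) '' (Icc (0 : ℝ) 1) ⊆ U ∩ G ⁻¹' {G z} := by
      rintro _ ⟨s, hs, rfl⟩
      exact ⟨(hball _ (hcball s hs)).1.2.2.1, hconst s hs⟩
    exact Set.countable_of_injective_of_countable_image hinj ((hfib (G z)).mono h1)
  have h1 := Cardinal.mk_Icc_real (zero_lt_one (α := ℝ))
  have h2 : Cardinal.mk (Icc (0 : ℝ) 1) ≤ Cardinal.aleph0 := Cardinal.mk_le_aleph0_iff.2 hcount
  rw [h1] at h2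
  exact absurd h2 (not_le.2 Cardinal.aleph0_lt_continuum)

end Pool.Agent.Q131.FT
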