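import Pool.Agent.Q131.FT.Loc
import Pool.Agent.Q131.CM.Cov
import Pool.Agent.Q130.CM.Mix

/-!
# Locally injective maps of closed manifolds: cone monotone points and countable-to-one points of
corank at most one without sign change of the Jacobian
-/

set_option autoImplicit false

open Set Filter Topology Metric Function
open scoped Manifold ContDiff

noncomputable section

namespace Pool.Agent.Q131.FT

open Pool.Agent.Y522 Pool.Agent.Y66.CM Pool.Agent.Q130.CM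

/-- locally injective continuous maps of manifolds of the same dimension -/
theorem isLocalHomeomorph_of_locally_injective (n : ℕ) {X Y : Type} [TopologicalSpace X]
    [ChartedSpace (E n) X] [TopologicalSpace Y] [ChartedSpace (E n) Y] (f : X → Y)
    (hc : Continuous f) (h : ∀ x, ∃ V ∈ 𝓝 x, InjOn f V) : IsLocalHomeomorph f := by
  rw [isLocalHomeomorph_iff_isOpenEmbedding_restrict]
  intro x
  obtain ⟨V, hV, hinj⟩ := h x
  obtain ⟨U, hU1, hU2, hU3⟩ := mem_nhds_iff.1 hV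
  refine ⟨U, hU2.mem_nhds hU3, ?_⟩
  obtain ⟨U', hU'⟩ : ∃ U' : TopologicalSpace.Opens X, (U' : Set X) = U := ⟨⟨U, hU2⟩, rfl⟩
  subst hU'
  have h1 : Continuous (fun u : U' => f u) := hc.comp continuous_subtype_val
  have h2 : Injective (fun u : U' => f u) := fun a b hab =>
    Subtype.ext (hinj (hU1 a.2) (hU1 b.2) hab)
  exact IsOpenEmbedding.of_continuous_injective_isOpenMap h1 h2
    (Pool.Agent.Q130.CM.isOpenMap_of_injective n (X := U') _ h1 h2)

theorem rank_lin {m : ℕ} (DA Df DB : E (m + 1) →L[ℝ] E (m + 1)) (hA : Injective DA)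
    (hB : Injective DB) (h : m ≤ Module.finrank ℝ (LinearMap.range Df.toLinearMap)) :
    m ≤ Module.finrank ℝ (LinearMap.range (DB.comp (Df.comp DA)).toLinearMap) := by
  have hDAs : Surjective DA :=
    (LinearMap.injective_iff_surjective (f := DA.toLinearMap)).mp hA
  have c4 : LinearMap.range (DB.comp (Df.comp DA)).toLinearMap =
      Submodule.map DB.toLinearMap (LinearMap.range Df.toLinearMap) := by
    change LinearMap.range (DB.toLinearMap ∘ₗ (Df.toLinearMap ∘ₗ DA.toLinearMap)) = _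
    rw [LinearMap.range_comp, LinearMap.range_comp_of_range_eq_top _
      (LinearMap.range_eq_top.2 hDAs)]
  rw [c4, ← (LinearEquiv.finrank_eq (Submodule.equivMapOfInjective DB.toLinearMap hB
    (LinearMap.range Df.toLinearMap)))]
  exact h

section

variable {m : ℕ} {X Y : Type} [TopologicalSpace X] [ChartedSpace (E (m + 1)) X]
  [IsManifold (𝓡 (m + 1)) ∞ X] [TopologicalSpace Y] [ChartedSpace (E (m + 1)) Y]
  [IsManifold (𝓡 (m + 1)) ∞ Y]

theorem rank_comp (f : X → Y) (A : E (m + 1) → X) (B : Y → E (m + 1)) (hA : LD (m + 1) A 0)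
    (hB : LD (m + 1) B (f (A 0))) (hf : ContMDiffAt (𝓡 (m + 1)) (𝓡 (m + 1)) ∞ f (A 0))
    (hrk : m ≤ Module.finrank ℝ
      (LinearMap.range (mfderiv (𝓡 (m + 1)) (𝓡 (m + 1)) f (A 0)).toLinearMap)) :
    m ≤ Module.finrank ℝ (LinearMap.range (fderiv ℝ (fun z => B (f (A z))) 0).toLinearMap) := by
  let Df : E (m + 1) →L[ℝ] E (m + 1) := mfderiv (𝓡 (m + 1)) (𝓡 (m + 1)) f (A 0)
  have hDf : HasMFDerivAt (𝓡 (m + 1)) (𝓡 (m + 1)) f (A 0) Df :=
    (hf.mdifferentiableAt (by simp)).hasMFDerivAt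
  let DA : E (m + 1) →L[ℝ] E (m + 1) := mfderiv (𝓡 (m + 1)) (𝓡 (m + 1)) A 0
  have hDA : HasMFDerivAt (𝓡 (m + 1)) (𝓡 (m + 1)) A 0 DA := hA.mdifferentiableAt.hasMFDerivAt
  have hDAi : Injective DA := hA.mfderiv_injective
  let DB : E (m + 1) →L[ℝ] E (m + 1) := mfderiv (𝓡 (m + 1)) (𝓡 (m + 1)) B (f (A 0))
  have hDB : HasMFDerivAt (𝓡 (m + 1)) (𝓡 (m + 1)) B (f (A 0)) DB :=
    hB.mdifferentiableAt.hasMFDerivAt
  have hDBi : Injective DB := hB.mfderiv_injective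
  have c1 : HasMFDerivAt (𝓡 (m + 1)) (𝓡 (m + 1)) (fun z => f (A z)) 0 (Df ∘L DA) :=
    HasMFDerivAt.comp (g := f) (f := A) (0 : E (m + 1)) hDf hDA
  have c2 : HasMFDerivAt (𝓡 (m + 1)) (𝓡 (m + 1)) (fun z => B (f (A z))) 0
      (DB ∘L (Df ∘L DA)) :=
    HasMFDerivAt.comp (g := B) (f := fun z => f (A z)) (0 : E (m + 1)) hDB c1
  have c2' : HasFDerivAt (fun z => B (f (A z))) (DB.comp (Df.comp DA)) (0 : E (m + 1)) :=
    hasMFDerivAt_iff_hasFDerivAt.1 c2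
  rw [c2'.fderiv]
  exact rank_lin DA Df DB hDAi hDBi hrk

theorem inj_near (f : X → Y) (A : E (m + 1) → X) (B : Y → E (m + 1)) (hA : LD (m + 1) A 0)
    (hB : LD (m + 1) B (f (A 0)))
    (hf : ∀ᶠ y in 𝓝 (A 0), ContMDiffAt (𝓡 (m + 1)) (𝓡 (m + 1)) ∞ f y)
    (hrk : m ≤ Module.finrank ℝ
      (LinearMap.range (mfderiv (𝓡 (m + 1)) (𝓡 (m + 1)) f (A 0)).toLinearMap))
    (hdet : ∀ᶠ z in 𝓝 (0 : E (m + 1)), 0 ≤ (fderiv ℝ (fun z => B (f (A z))) z).det)
    (U : Set X) (hU : U ∈ 𝓝 (A 0)) (hfib : ∀ y, (U ∩ f ⁻¹' {y}).Countable) :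
    ∃ V ∈ 𝓝 (A 0), InjOn f V := by
  have hfc : ContinuousAt (fun z => f (A z)) 0 :=
    hf.self_of_nhds.continuousAt.comp hA.continuousAt
  have hGs : ∀ᶠ z in 𝓝 (0 : E (m + 1)), ContDiffAt ℝ ∞ (fun z => B (f (A z))) z := by
    have h1 : ∀ᶠ z in 𝓝 (0 : E (m + 1)), LD (m + 1) B (f (A z)) := hfc.eventually hB.eventually
    filter_upwards [hA.eventually, h1, hA.continuousAt.eventually hf] with z h2 h3 h4
    rw [← contMDiffAt_iff_contDiffAt]
    exact h3.contMDiffAt.comp z (h4.comp z h2.contMDiffAt)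
  obtain ⟨u, hu, hAi⟩ := hA.eventually_injOn
  obtain ⟨v, hv, hBi⟩ := hB.eventually_injOn
  have hv' : (fun z => f (A z)) ⁻¹' v ∈ 𝓝 (0 : E (m + 1)) := hfc.preimage_mem_nhds hv
  have hU' : A ⁻¹' U ∈ 𝓝 (0 : E (m + 1)) := hA.continuousAt.preimage_mem_nhds hU
  obtain ⟨V, hV, hinj⟩ := locally_injective (fun z => B (f (A z))) 0 hGs
    (rank_comp f A B hA hB hf.self_of_nhds hrk) hdet
    (u ∩ (fun z => f (A z)) ⁻¹' v ∩ A ⁻¹' U) (inter_mem (inter_mem hu hv') hU') (by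
      intro y
      by_cases hne : (u ∩ (fun z => f (A z)) ⁻¹' v ∩ A ⁻¹' U ∩
          (fun z => B (f (A z))) ⁻¹' {y}).Nonempty
      · obtain ⟨z₁, ⟨⟨h1, h2⟩, h0⟩, h3⟩ := hne
        have hsub : A '' (u ∩ (fun z => f (A z)) ⁻¹' v ∩ A ⁻¹' U ∩
            (fun z => B (f (A z))) ⁻¹' {y}) ⊆ U ∩ f ⁻¹' {f (A z₁)} := by
          rintro _ ⟨z, ⟨⟨⟨h4, h5⟩, h7⟩, h6⟩, rfl⟩
          exact ⟨h7, hBi h5 h2 (h6.trans h3.symm)⟩
        exact Set.countable_of_injective_of_countable_image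
          (hAi.mono fun z hz => hz.1.1.1) ((hfib _).mono hsub)
      · rw [Set.not_nonempty_iff_eq_empty.1 hne]
        exact countable_empty)
  refine ⟨A '' V, hA.image_mem_nhds hV, ?_⟩
  rintro _ ⟨z, hz, rfl⟩ _ ⟨z', hz', rfl⟩ h
  exact congrArg A (hinj hz hz' (congrArg B h))

/-- cone monotone points -/
theorem inj_near_cmon {n : ℕ} {X Y : Type} [TopologicalSpace X] [ChartedSpace (E n) X]
    [IsManifold (𝓡 n) ∞ X] [TopologicalSpace Y] [ChartedSpace (E n) Y] [IsManifold (𝓡 n) ∞ Y]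
    (f : X → Y) (x : X) (h : CMon n f x) : ∃ V ∈ 𝓝 x, InjOn f V := by
  obtain ⟨C, hC, hF⟩ := h
  obtain ⟨B, κ, hκ, hB0, hBi, hBL, -, hbox⟩ := Pool.Agent.Y66.CM.cbox_exists isOpen_univ
    (mem_univ x) hF
  have h0 : (0 : E n) ∈ closedBall (0 : E n) 2 := mem_closedBall_self (by norm_num)
  refine ⟨B '' (closedBall 0 2), ?_, ?_⟩
  · rw [← hB0]
    exact (hBL 0 h0).image_mem_nhds (closedBall_mem_nhds _ (by norm_num))
  rintro _ ⟨p, hp, rfl⟩ _ ⟨q, hq, rfl⟩ hpq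
  by_contra hne
  have hpq' : p ≠ q := fun h => hne (by rw [h])
  have hn : 0 < ‖q - p‖ := norm_pos_iff.2 (sub_ne_zero.2 hpq'.symm)
  obtain ⟨c, ℓ, hc, hd⟩ := hbox (‖q - p‖⁻¹ • (q - p)) (by
    rw [norm_smul, norm_inv, norm_norm, inv_mul_cancel₀ hn.ne'])
  have h1 := hd p q (mem_closedBall_zero_iff.1 hp) (mem_closedBall_zero_iff.1 hq) ‖q - p‖ hn (by
    rw [smul_smul, mul_inv_cancel₀ hn.ne', one_smul, sub_self, norm_zero]
    positivity)
  have h2 : (fun y => C (f y)) (B q) - (fun y => C (f y)) (B p) = 0 := by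
    change C (f (B q)) - C (f (B p)) = 0
    rw [hpq, sub_self]
  rw [h2, norm_zero, mul_zero, map_zero] at h1
  exact lt_irrefl _ h1

/-- smooth points of corank at most one, with countable fibres and without sign change of the
Jacobian -/
def NF (m : ℕ) {X Y : Type} [TopologicalSpace X] [ChartedSpace (E (m + 1)) X]
    [TopologicalSpace Y] [ChartedSpace (E (m + 1)) Y] (f : X → Y) (x : X) : Prop :=
  Co1 m f x ∧ (∃ U ∈ 𝓝 x, ∀ y, (U ∩ f ⁻¹' {y}).Countable) ∧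
  ∃ (A : E (m + 1) → X) (B : Y → E (m + 1)), A 0 = x ∧ LD (m + 1) A 0 ∧ LD (m + 1) B (f x) ∧
    ∀ᶠ z in 𝓝 (0 : E (m + 1)), 0 ≤ (fderiv ℝ (fun z => B (f (A z))) z).det

theorem isLocalHomeomorph (f : X → Y) (hc : Continuous f)
    (hf : ∀ x, LD (m + 1) f x ∨ CMon (m + 1) f x ∨ NF m f x) : IsLocalHomeomorph f := by
  apply isLocalHomeomorph_of_locally_injective (m + 1) f hc
  intro x
  rcases hf x with h | h | ⟨h, ⟨U, hU, hfib⟩, A, B, rfl, hA, hB, hdet⟩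
  · exact h.eventually_injOn
  · exact inj_near_cmon f x h
  · exact inj_near f A B hA hB (h.mono fun y hy => hy.1) h.self_of_nhds.2 hdet U hU hfib

end

section

variable {m : ℕ} {X Y : Type} [TopologicalSpace X] [T2Space X] [CompactSpace X]
  [ChartedSpace (E (m + 1)) X] [IsManifold (𝓡 (m + 1)) ∞ X] [TopologicalSpace Y] [T2Space Y]
  [ChartedSpace (E (m + 1)) Y] [IsManifold (𝓡 (m + 1)) ∞ Y]

/-- bijective maps -/
theorem diffeo_bij (hm : 1 ≤ m) (f : X → Y) (hc : Continuous f)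
    (hf : ∀ x, LD (m + 1) f x ∨ CMon (m + 1) f x ∨ NF m f x) (hb : Bijective f)
    (V : Set X) (hV : IsOpen V) (hVf : ∀ x, x ∉ V → LD (m + 1) f x)
    (O : Set (X × Y)) (hO : IsOpen O) (hfO : ∀ x, (x, f x) ∈ O) :
    ∃ Φ : Diffeomorph (𝓡 (m + 1)) (𝓡 (m + 1)) X Y ∞, (∀ x, (x, Φ x) ∈ O) ∧
      ∀ x, x ∉ V → Φ x = f x := by
  obtain ⟨h, hh⟩ : ∃ h : X ≃ₜ Y, ∀ x, h x = f x :=
    ⟨(isHomeomorph_iff_continuous_bijective.2 ⟨hc, hb⟩).homeomorph, fun x => rfl⟩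
  have hhf : (h : X → Y) = f := funext hh
  obtain ⟨f', h1, h2, h3, h4⟩ := mixInf m hm X Y h V hV (by
    intro x hx
    rw [hhf] at hx ⊢
    refine ⟨by_contra fun hxV => hx (hVf x hxV), ?_⟩
    rcases hf x with h | h | h
    · exact absurd h hx
    · exact Or.inl h
    · exact Or.inr h.1) O hO (fun x => by rw [hh]; exact hfO x)
  have hl : IsLocalDiffeomorph (𝓡 (m + 1)) (𝓡 (m + 1)) ∞ f' := h3
  exact ⟨hl.diffeomorphOfBijective h2, h1, fun x hx => (h4 x hx).trans (hh x)⟩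

/-- maps to simply connected manifolds -/
theorem bij_sc [ConnectedSpace X] [SimplyConnectedSpace Y] (f : X → Y) (hc : Continuous f)
    (hf : ∀ x, LD (m + 1) f x ∨ CMon (m + 1) f x ∨ NF m f x) : Bijective f := by
  have : LocallyPathConnectedSpace X := ChartedSpace.locallyPathConnectedSpace (E (m + 1)) X
  have hX : PathConnectedSpace X := pathConnectedSpace_iff_connectedSpace.2 inferInstance
  exact Pool.Agent.Q131.CM.bij_of_simplyConnected (⟨f, hc⟩ : C(X, Y)) (isLocalHomeomorph f hc hf)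

/-- maps homotopic to homeomorphisms -/
theorem bij_he (h : X ≃ₜ Y) (f h' : C(X, Y)) (hh : ∀ x, h' x = h x)
    (H : ContinuousMap.Homotopic f h')
    (hf : ∀ x, LD (m + 1) f x ∨ CMon (m + 1) f x ∨ NF m f x) : Bijective f :=
  Pool.Agent.Q131.CM.bij_of_homotopic_homeo h f h' hh (isLocalHomeomorph f f.continuous hf) H

end

end Pool.Agent.Q131.FT
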