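import Pool.Agent.Q131.FT.Main

/-!
# Covering maps which are surjective on the fundamental group
-/

set_option autoImplicit false

open Set Filter Topology Metric Function
open scoped Manifold ContDiff

noncomputable section

namespace Pool.Agent.Q131.FT

open Pool.Agent.Y522 Pool.Agent.Y66.CM Pool.Agent.Q130.CM

/-- `f` is surjective on fundamental groups, at every base point -/
def PiOnto {X Y : Type} [TopologicalSpace X] [TopologicalSpace Y] (f : C(X, Y)) : Prop :=
  ∀ (x : X) (γ : Path (f x) (f x)), ∃ δ : Path x x, (δ.map f.continuous).Homotopic γ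

/-- A local homeomorphism from a compact path connected space to a connected space which is
surjective on fundamental groups is bijective. -/
theorem bij_of_pi {X Y : Type} [TopologicalSpace X] [TopologicalSpace Y] [T2Space X] [T2Space Y]
    [CompactSpace X] [PathConnectedSpace X] [ConnectedSpace Y] (f : C(X, Y))
    (hl : IsLocalHomeomorph f) (hp : PiOnto f) : Bijective f := by
  have cov : IsCoveringMap f := isLocalHomeomorph_iff_isCoveringMap.1 hl
  constructor
  · intro a b hab
    obtain ⟨γ⟩ := PathConnectedSpace.joined a b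
    let γ' : Path (f a) (f a) := (γ.map f.continuous).cast rfl hab
    obtain ⟨δ, hδ⟩ := hp a γ'
    have h2 : (γ : C(unitInterval, X)).HomotopicRel (δ : C(unitInterval, X)) {0, 1} := by
      rw [cov.homotopicRel_iff_comp ⟨0, by simp, by simp⟩]
      exact hδ.symm
    obtain ⟨G⟩ := h2
    have h3 : (γ : C(unitInterval, X)) 1 = (δ : C(unitInterval, X)) 1 := by
      rw [← G.eq_fst 0 (x := 1) (by simp), ← G.eq_snd 0 (x := 1) (by simp)]
    simpa using h3.symm
  · have hclopen : IsClopen (range f) := ⟨(isCompact_range f.continuous).isClosed,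
      hl.isOpenMap.isOpen_range⟩
    have h1 := hclopen.eq_univ (range_nonempty f)
    exact range_eq_univ.1 h1

variable {m : ℕ} {X Y : Type} [TopologicalSpace X] [T2Space X] [CompactSpace X]
  [ChartedSpace (E (m + 1)) X] [IsManifold (𝓡 (m + 1)) ∞ X] [TopologicalSpace Y] [T2Space Y]
  [ChartedSpace (E (m + 1)) Y] [IsManifold (𝓡 (m + 1)) ∞ Y]

theorem bij_pi [ConnectedSpace X] [ConnectedSpace Y] (f : C(X, Y))
    (hf : ∀ x, LD (m + 1) f x ∨ CMon (m + 1) f x ∨ NF m f x) (hp : PiOnto f) : Bijective f := by
  have : LocallyPathConnectedSpace X := ChartedSpace.locallyPathConnectedSpace (E (m + 1)) X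
  have hX : PathConnectedSpace X := pathConnectedSpace_iff_connectedSpace.2 inferInstance
  exact bij_of_pi f (isLocalHomeomorph f f.continuous hf) hp

end Pool.Agent.Q131.FT
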